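import Pool.Agent.helper11.Tight.Defs

set_option linter.all false

/-! mod:T0 switching -/

namespace Pool.Agent.helper11.Tight

open Finset

variable {V : Type*} [Fintype V] [DecidableEq V]

theorem sw_adj {H : SimpleGraph V} {a x b y : V}
    (hax : H.Adj a x) (hby : H.Adj b y) (hab : ¬ Near H a b) (hxy : ¬ Near H x y) (u v : V) :
    (sw H a x b y).Adj u v ↔
      (H.Adj u v ∧ s(u, v) ≠ s(a, x) ∧ s(u, v) ≠ s(b, y)) ∨ s(u, v) = s(a, b) ∨
        s(u, v) = s(x, y) := by
  have hab' : a ≠ b := fun h => hab (Or.inl h)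
  have hxy' : x ≠ y := fun h => hxy (Or.inl h)
  unfold sw
  rw [SimpleGraph.fromEdgeSet_adj]
  simp only [Set.mem_union, Set.mem_diff, Set.mem_insert_iff, Set.mem_singleton_iff,
    SimpleGraph.mem_edgeSet, not_or]
  constructor
  · rintro ⟨h | h | h, hne⟩
    · left; exact ⟨h.1, h.2.1, h.2.2⟩
    · right; left; exact h
    · right; right; exact h
  · rintro (⟨h1, h2, h3⟩ | h | h)
    · exact ⟨Or.inl ⟨h1, h2, h3⟩, h1.ne⟩
    · refine ⟨Or.inr (Or.inl h), ?_⟩
      rintro rfl
      rw [Sym2.eq_iff] at h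
      rcases h with ⟨h1, h2⟩ | ⟨h1, h2⟩
      · exact hab' (h1.symm.trans h2)
      · exact hab' (h2.symm.trans h1)
    · refine ⟨Or.inr (Or.inr h), ?_⟩
      rintro rfl
      rw [Sym2.eq_iff] at h
      rcases h with ⟨h1, h2⟩ | ⟨h1, h2⟩
      · exact hxy' (h1.symm.trans h2)
      · exact hxy' (h2.symm.trans h1)

theorem sw_edgeSet {H : SimpleGraph V} {a x b y : V}
    (hax : H.Adj a x) (hby : H.Adj b y) (hab : ¬ Near H a b) (hxy : ¬ Near H x y) :
    (sw H a x b y).edgeSet = (H.edgeSet \ {s(a, x), s(b, y)}) ∪ {s(a, b), s(x, y)} := by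
  ext e
  induction e using Sym2.ind with
  | h u v =>
    rw [SimpleGraph.mem_edgeSet, sw_adj hax hby hab hxy]
    simp only [Set.mem_union, Set.mem_diff, Set.mem_insert_iff, Set.mem_singleton_iff,
      SimpleGraph.mem_edgeSet, not_or]

theorem sw_sw {H : SimpleGraph V} {a x b y : V}
    (hax : H.Adj a x) (hby : H.Adj b y) (hab : ¬ Near H a b) (hxy : ¬ Near H x y) :
    sw (sw H a x b y) a b x y = H := by
  have h1 : s(a, b) ∉ H.edgeSet := fun h => hab (Or.inr (Or.inl (by simpa using h)))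
  have h2 : s(x, y) ∉ H.edgeSet := fun h => hxy (Or.inr (Or.inl (by simpa using h)))
  have h3 : s(a, x) ∈ H.edgeSet := by simpa using hax
  have h4 : s(b, y) ∈ H.edgeSet := by simpa using hby
  have key : (((sw H a x b y).edgeSet \ {s(a, b), s(x, y)}) ∪ {s(a, x), s(b, y)}) = H.edgeSet := by
    rw [sw_edgeSet hax hby hab hxy]
    ext e
    simp only [Set.mem_union, Set.mem_diff, Set.mem_insert_iff, Set.mem_singleton_iff]
    constructor
    · rintro (⟨h | h, h'⟩ | h | h)
      · exact h.1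
      · exact absurd h h'
      · rw [h]; exact h3
      · rw [h]; exact h4
    · intro h
      by_cases ha : e = s(a, x) ∨ e = s(b, y)
      · right; exact ha
      · left
        refine ⟨Or.inl ⟨h, ha⟩, ?_⟩
        rintro (h' | h')
        · rw [h'] at h; exact h1 h
        · rw [h'] at h; exact h2 h
  conv_lhs => unfold sw
  have := key
  unfold sw at this
  rw [this]
  exact SimpleGraph.fromEdgeSet_edgeSet H

/-- tri-free and C4-free for a relation -/
def TC (R : V → V → Prop) : Prop :=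
  (∀ a b c, R a b → R b c → ¬ R a c) ∧
    ∀ u v w w', u ≠ v → R u w → R v w → R u w' → R v w' → w = w'

theorem TC_mono {R R' : V → V → Prop} (h : ∀ u v, R' u v → R u v) (hR : TC R) : TC R' :=
  ⟨fun a b c h1 h2 h3 => hR.1 a b c (h _ _ h1) (h _ _ h2) (h _ _ h3),
    fun u v w w' hne h1 h2 h3 h4 => hR.2 u v w w' hne (h _ _ h1) (h _ _ h2) (h _ _ h3) (h _ _ h4)⟩

/-- add an edge -/
def addE (R : V → V → Prop) (a b : V) (u v : V) : Prop :=
  R u v ∨ (u = a ∧ v = b) ∨ (u = b ∧ v = a)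

theorem TC_add {R : V → V → Prop} (hs : ∀ u v, R u v → R v u) (hR : TC R) {a b : V}
    (h0 : a ≠ b) (h1 : ¬ R a b) (h2 : ∀ w, R a w → ¬ R w b)
    (h3 : ∀ w z, R a w → R w z → ¬ R z b) (hirr : ∀ v, ¬ R v v) : TC (addE R a b) := by
  obtain ⟨ht, hc⟩ := hR
  have h1' : ¬ R b a := fun h => h1 (hs _ _ h)
  refine ⟨?_, ?_⟩
  · intro p q r hpq hqr hpr
    unfold addE at hpq hqr hpr
    rcases hpq with hpq | ⟨rfl, rfl⟩ | ⟨rfl, rfl⟩ <;>
    rcases hqr with hqr | ⟨hq1, hq2⟩ | ⟨hq1, hq2⟩ <;>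
    rcases hpr with hpr | ⟨hp1, hp2⟩ | ⟨hp1, hp2⟩ <;> grind
  · intro u v w w' hne h4 h5 h6 h7
    unfold addE at h4 h5 h6 h7
    rcases h4 with h4 | ⟨rfl, rfl⟩ | ⟨rfl, rfl⟩ <;>
    rcases h5 with h5 | ⟨hq1, hq2⟩ | ⟨hq1, hq2⟩ <;>
    rcases h6 with h6 | ⟨hp1, hp2⟩ | ⟨hp1, hp2⟩ <;>
    rcases h7 with h7 | ⟨hr1, hr2⟩ | ⟨hr1, hr2⟩ <;> grind

theorem sw_tc {H : SimpleGraph V} {d : ℕ} (hH : Base H d) {a x b y : V}
    (hax : H.Adj a x) (hby : H.Adj b y) (hab : ¬ Near H a b) (hxy : ¬ Near H x y) :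
    TC (sw H a x b y).Adj := by
  have hTC : TC H.Adj := ⟨hH.tri, hH.c4⟩
  unfold Near at hab hxy
  push Not at hab hxy
  obtain ⟨hab0, hab1, hab2, hab3⟩ := hab
  obtain ⟨hxy0, hxy1, hxy2, hxy3⟩ := hxy
  have hxb : x ≠ b := by rintro rfl; exact hab1 hax
  have hay : a ≠ y := by rintro rfl; exact hab1 hby.symm
  set R0 : V → V → Prop := fun u v => H.Adj u v ∧ s(u, v) ≠ s(a, x) ∧ s(u, v) ≠ s(b, y) with hR0
  have hR0H : ∀ u v, R0 u v → H.Adj u v := fun u v h => h.1
  have hR0s : ∀ u v, R0 u v → R0 v u := by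
    intro u v h
    refine ⟨h.1.symm, ?_, ?_⟩
    · rw [Sym2.eq_swap]; exact h.2.1
    · rw [Sym2.eq_swap]; exact h.2.2
  have hR0ax : ¬ R0 a x := fun h => h.2.1 rfl
  have hR0xa : ¬ R0 x a := fun h => hR0ax (hR0s _ _ h)
  have h0 : TC R0 := TC_mono hR0H hTC
  have hadd1 : TC (addE R0 a b) := by
    refine TC_add hR0s h0 hab0 (fun h => hab1 (hR0H _ _ h)) ?_ ?_ (fun v h => (hR0H _ _ h).ne rfl)
    · intro w h1 h2
      exact hab2 w (hR0H _ _ h1) (hR0H _ _ h2)
    · intro w z h1 h2 h3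
      exact hab3 w z (hR0H _ _ h1) (hR0H _ _ h2) (hR0H _ _ h3)
  have hs1 : ∀ u v, addE R0 a b u v → addE R0 a b v u := by
    intro u v h
    rcases h with h | ⟨h, h'⟩ | ⟨h, h'⟩
    · exact Or.inl (hR0s _ _ h)
    · exact Or.inr (Or.inr ⟨h', h⟩)
    · exact Or.inr (Or.inl ⟨h', h⟩)
  have hax' : a ≠ x := hax.ne
  have hby' : b ≠ y := hby.ne
  have hxb1 : ¬ H.Adj x b := hab2 x hax
  have hadd2 : TC (addE (addE R0 a b) x y) := by
    refine TC_add hs1 hadd1 hxy0 ?_ ?_ ?_ ?_
    · rintro (h | ⟨h, h'⟩ | ⟨h, h'⟩)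
      · exact hxy1 (hR0H _ _ h)
      · exact hax' h.symm
      · exact hxb h
    · rintro w (h | ⟨h, h'⟩ | ⟨h, h'⟩) (h1 | ⟨h1, h1'⟩ | ⟨h1, h1'⟩)
      · exact hxy2 w (hR0H _ _ h) (hR0H _ _ h1)
      · exact hby' h1'.symm
      · exact hay h1'.symm
      · exact hax' h.symm
      · exact hax' h.symm
      · exact hax' h.symm
      · exact hxb h
      · exact hxb h
      · exact hxb h
    · rintro w z (h | ⟨h, h'⟩ | ⟨h, h'⟩) h1 (h2 | ⟨h2, h2'⟩ | ⟨h2, h2'⟩)
      · rcases h1 with h1 | ⟨h1, h1'⟩ | ⟨h1, h1'⟩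
        · exact hxy3 w z (hR0H _ _ h) (hR0H _ _ h1) (hR0H _ _ h2)
        · subst h1; exact hR0xa h
        · subst h1; exact hxb1 (hR0H _ _ h)
      · exact hby' h2'.symm
      · exact hay h2'.symm
      · exact hax' h.symm
      · exact hax' h.symm
      · exact hax' h.symm
      · exact hxb h
      · exact hxb h
      · exact hxb h
    · rintro v (h | ⟨h, h'⟩ | ⟨h, h'⟩)
      · exact (hR0H _ _ h).ne rfl
      · exact hab0 (h.symm.trans h')
      · exact hab0 (h'.symm.trans h)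
  refine TC_mono ?_ hadd2
  intro u v h
  have hab' : ¬ Near H a b := by
    unfold Near; push Not; exact ⟨hab0, hab1, hab2, hab3⟩
  have hxy' : ¬ Near H x y := by
    unfold Near; push Not; exact ⟨hxy0, hxy1, hxy2, hxy3⟩
  rw [sw_adj hax hby hab' hxy'] at h
  rcases h with h | h | h
  · exact Or.inl (Or.inl h)
  · rw [Sym2.eq_iff] at h
    exact Or.inl (Or.inr h)
  · rw [Sym2.eq_iff] at h
    exact Or.inr h

theorem sw_base {H : SimpleGraph V} {d : ℕ} (hH : Base H d) {a x b y : V}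
    (hax : H.Adj a x) (hby : H.Adj b y) (hab : ¬ Near H a b) (hxy : ¬ Near H x y) :
    Base (sw H a x b y) d := by
  have htc := sw_tc hH hax hby hab hxy
  refine ⟨?_, htc.1, htc.2⟩
  have hadj := sw_adj hax hby hab hxy
  have hab0 : a ≠ b := fun h => hab (Or.inl h)
  have hab1 : ¬ H.Adj a b := fun h => hab (Or.inr (Or.inl h))
  have hxy0 : x ≠ y := fun h => hxy (Or.inl h)
  have hxy1 : ¬ H.Adj x y := fun h => hxy (Or.inr (Or.inl h))
  have hxb : x ≠ b := by rintro rfl; exact hab1 hax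
  have hay : a ≠ y := by rintro rfl; exact hab1 hby.symm
  have hax' : a ≠ x := hax.ne
  have hby' : b ≠ y := hby.ne
  have hcard : ∀ (v p q : V), H.Adj v p → ¬ H.Adj v q →
      (insert q ((nb H v).erase p)).card = d := by
    intro v p q hp hq
    have h1 : q ∉ (nb H v).erase p := by
      intro h
      exact hq (by simpa using (Finset.mem_of_mem_erase h))
    rw [Finset.card_insert_of_notMem h1, Finset.card_erase_of_mem (by simpa using hp), hH.reg]
    have : 0 < d := by
      rw [← hH.reg v]; exact Finset.card_pos.mpr ⟨p, by simpa using hp⟩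
    omega
  intro v
  by_cases hva : v = a
  · subst hva
    have : nb (sw H v x b y) v = insert b ((nb H v).erase x) := by
      ext w
      simp only [mem_nb, hadj, Finset.mem_insert, Finset.mem_erase, Sym2.eq_iff]
      grind
    rw [this]; exact hcard v x b hax hab1
  by_cases hvx : v = x
  · subst hvx
    have : nb (sw H a v b y) v = insert y ((nb H v).erase a) := by
      ext w
      simp only [mem_nb, hadj, Finset.mem_insert, Finset.mem_erase, Sym2.eq_iff]
      grind
    rw [this]; exact hcard v a y hax.symm hxy1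
  by_cases hvb : v = b
  · subst hvb
    have : nb (sw H a x v y) v = insert a ((nb H v).erase y) := by
      ext w
      simp only [mem_nb, hadj, Finset.mem_insert, Finset.mem_erase, Sym2.eq_iff]
      grind
    rw [this]; exact hcard v y a hby (fun h => hab1 h.symm)
  by_cases hvy : v = y
  · subst hvy
    have : nb (sw H a x b v) v = insert x ((nb H v).erase b) := by
      ext w
      simp only [mem_nb, hadj, Finset.mem_insert, Finset.mem_erase, Sym2.eq_iff]
      grind
    rw [this]; exact hcard v b x hby.symm (fun h => hxy1 h.symm)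
  have : nb (sw H a x b y) v = nb H v := by
    ext w
    simp only [mem_nb, hadj, Sym2.eq_iff]
    grind
  rw [this]; exact hH.reg v

open Classical in
theorem near_card {H : SimpleGraph V} {d : ℕ} (hH : Base H d) (hd : 2 ≤ d) (a : V) :
    (Finset.univ.filter (fun b => Near H a b)).card ≤ 2 * d ^ 3 := by
  have hn : ∀ U : Finset V, (nbs H U).card ≤ U.card * d := by
    intro U
    unfold nbs
    refine le_trans Finset.card_biUnion_le ?_
    rw [Finset.sum_congr rfl (fun v _ => hH.reg v)]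
    simp
  have hsub : (Finset.univ.filter (fun b => Near H a b)) ⊆
      (({a} ∪ nb H a) ∪ nbs H (nb H a)) ∪ nbs H (nbs H (nb H a)) := by
    intro b hb
    simp only [Finset.mem_filter, Finset.mem_univ, true_and] at hb
    simp only [Finset.mem_union, Finset.mem_singleton, mem_nb, mem_nbs]
    rcases hb with h | h | ⟨w, h1, h2⟩ | ⟨w, z, h1, h2, h3⟩
    · left; left; left; exact h.symm
    · left; left; right; exact h
    · left; right; exact ⟨w, h1, h2⟩
    · right; exact ⟨z, ⟨w, h1, h2⟩, h3⟩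
  have h1 : (nb H a).card = d := hH.reg a
  have h2 : (nbs H (nb H a)).card ≤ d * d := by simpa [h1] using hn (nb H a)
  have h3 : (nbs H (nbs H (nb H a))).card ≤ d * d * d :=
    le_trans (hn _) (Nat.mul_le_mul_right d h2)
  refine le_trans (Finset.card_le_card hsub) ?_
  refine le_trans (Finset.card_union_le _ _) ?_
  have h4 := Finset.card_union_le ({a} ∪ nb H a) (nbs H (nb H a))
  have h5 := Finset.card_union_le {a} (nb H a)
  rw [Finset.card_singleton, h1] at h5
  have h6 : 1 + d + d * d ≤ d * d * d := by nlinarith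
  have h7 : d ^ 3 = d * d * d := by ring
  rw [h7]
  omega

end Pool.Agent.helper11.Tight
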