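import Pool.Agent.helper74.Tight.T0

set_option linter.all false

/-! mod:T6b, the main switching lemma -/

namespace Pool.Agent.helper11.Tight

open Finset

variable {V : Type*} [Fintype V] [DecidableEq V]

/-- the classes used for switching -/
def FJ (S T : Finset V) (E1 σ0 d j : ℕ) (H : SimpleGraph V) : Prop :=
  eo H S T = j ∧ eo H (S ∪ T) (S ∪ T) ≤ E1 + 2 * j ∧ S2 H S T ≤ σ0 + 6 * d * j

open Classical in
/-- oriented edges starting in `A` -/
noncomputable def DS (H : SimpleGraph V) (A : Finset V) : Finset (V × V) :=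
  (A ×ˢ univ).filter (fun p => H.Adj p.1 p.2)

@[simp] theorem mem_DS {H : SimpleGraph V} {A : Finset V} {p : V × V} :
    p ∈ DS H A ↔ p.1 ∈ A ∧ H.Adj p.1 p.2 := by
  simp [DS]

theorem DS_card {H : SimpleGraph V} {d : ℕ} (hreg : ∀ v, (nb H v).card = d) (A : Finset V) :
    (DS H A).card = A.card * d := by
  classical
  unfold DS
  rw [Finset.card_filter, Finset.sum_product]
  have h : ∀ a ∈ A, (∑ w ∈ (univ : Finset V), if H.Adj a w then 1 else 0) = d := by
    intro a _
    rw [← Finset.card_filter, ← hreg a]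
    unfold nb
    congr
  calc _ = ∑ a ∈ A, d := Finset.sum_congr rfl h
    _ = _ := by simp

open Classical in
/-- oriented edges from `A` to `W` -/
noncomputable def EO (H : SimpleGraph V) (A W : Finset V) : Finset (V × V) :=
  (A ×ˢ W).filter (fun p => H.Adj p.1 p.2)

@[simp] theorem mem_EO {H : SimpleGraph V} {A W : Finset V} {p : V × V} :
    p ∈ EO H A W ↔ (p.1 ∈ A ∧ p.2 ∈ W) ∧ H.Adj p.1 p.2 := by
  simp [EO]

theorem EO_card {H : SimpleGraph V} {A W : Finset V} : (EO H A W).card = eo H A W := rfl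

open Classical in
theorem sum_rel_left (R : V → V → Prop) (D : ℕ) (f : V → ℕ)
    (h1 : ∀ x, (univ.filter (fun y => R x y)).card ≤ D) :
    ∑ p ∈ (univ : Finset (V × V)).filter (fun p => R p.1 p.2), f p.1 ≤ D * ∑ x, f x := by
  rw [Finset.sum_filter, ← Finset.univ_product_univ, Finset.sum_product, Finset.mul_sum]
  refine Finset.sum_le_sum (fun x _ => ?_)
  simp only
  rw [← Finset.sum_filter, Finset.sum_const, smul_eq_mul]
  exact Nat.mul_le_mul_right _ (h1 x)

open Classical in
theorem sum_rel_right (R : V → V → Prop) (D : ℕ) (f : V → ℕ)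
    (h1 : ∀ y, (univ.filter (fun x => R x y)).card ≤ D) :
    ∑ p ∈ (univ : Finset (V × V)).filter (fun p => R p.1 p.2), f p.2 ≤ D * ∑ x, f x := by
  rw [Finset.sum_filter, ← Finset.univ_product_univ, Finset.sum_product_right, Finset.mul_sum]
  refine Finset.sum_le_sum (fun y _ => ?_)
  simp only
  rw [← Finset.sum_filter, Finset.sum_const, smul_eq_mul]
  exact Nat.mul_le_mul_right _ (h1 y)

open Classical in
theorem rel_count (H : SimpleGraph V) (S T : Finset V) (R : V → V → Prop) (D : ℕ)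
    (h1 : ∀ x, (univ.filter (fun y => R x y)).card ≤ D)
    (h2 : ∀ y, (univ.filter (fun x => R x y)).card ≤ D) :
    2 * ((DS H S ×ˢ DS H T).filter (fun q => R q.1.2 q.2.2)).card ≤ D * S2 H S T := by
  set F := (DS H S ×ˢ DS H T).filter (fun q => R q.1.2 q.2.2) with hF
  set t := (univ : Finset (V × V)).filter (fun p => R p.1 p.2) with ht
  have hfib : F.card = ∑ p ∈ t, (F.filter (fun q => (q.1.2, q.2.2) = p)).card := by
    apply Finset.card_eq_sum_card_fiberwise
    intro q hq
    simp only [hF, Finset.coe_filter, Set.mem_setOf_eq] at hq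
    simp only [ht, Finset.coe_filter, Set.mem_setOf_eq, Finset.mem_univ, true_and]
    exact hq.2
  have hle : ∀ p ∈ t, (F.filter (fun q => (q.1.2, q.2.2) = p)).card ≤
      (nb H p.1 ∩ S).card * (nb H p.2 ∩ T).card := by
    intro p _
    rw [← Finset.card_product]
    apply Finset.card_le_card_of_injOn (fun q => (q.1.1, q.2.1))
    · intro q hq
      simp only [hF, Finset.coe_filter, Set.mem_setOf_eq, Finset.mem_filter, Finset.mem_product,
        mem_DS] at hq
      obtain ⟨⟨⟨⟨hq1, hq2⟩, hq3, hq4⟩, _⟩, rfl⟩ := hq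
      simp only [Finset.coe_product, Set.mem_prod, Finset.mem_coe, Finset.mem_inter, mem_nb]
      exact ⟨⟨hq2.symm, hq1⟩, hq4.symm, hq3⟩
    · intro q hq q' hq' h
      simp only [Finset.coe_filter, Set.mem_setOf_eq] at hq hq'
      obtain ⟨_, rfl⟩ := hq
      have h' := hq'.2
      simp only [Prod.mk.injEq] at h h'
      ext
      · exact h.1
      · exact h'.1.symm
      · exact h.2
      · exact h'.2.symm
  rw [hfib]
  calc 2 * ∑ p ∈ t, (F.filter (fun q => (q.1.2, q.2.2) = p)).card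
      ≤ 2 * ∑ p ∈ t, (nb H p.1 ∩ S).card * (nb H p.2 ∩ T).card :=
        Nat.mul_le_mul_left _ (Finset.sum_le_sum hle)
    _ = ∑ p ∈ t, 2 * ((nb H p.1 ∩ S).card * (nb H p.2 ∩ T).card) := by rw [Finset.mul_sum]
    _ ≤ ∑ p ∈ t, ((nb H p.1 ∩ S).card ^ 2 + (nb H p.2 ∩ T).card ^ 2) := by
        refine Finset.sum_le_sum (fun p _ => ?_)
        have := two_mul_le_add_sq (nb H p.1 ∩ S).card (nb H p.2 ∩ T).card
        rw [← mul_assoc]; exact this
    _ = ∑ p ∈ t, (nb H p.1 ∩ S).card ^ 2 + ∑ p ∈ t, (nb H p.2 ∩ T).card ^ 2 :=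
        Finset.sum_add_distrib
    _ ≤ D * ∑ x, (nb H x ∩ S).card ^ 2 + D * ∑ x, (nb H x ∩ T).card ^ 2 :=
        Nat.add_le_add (sum_rel_left R D (fun x => (nb H x ∩ S).card ^ 2) h1)
          (sum_rel_right R D (fun x => (nb H x ∩ T).card ^ 2) h2)
    _ = D * S2 H S T := by
        rw [← Nat.mul_add, ← Finset.sum_add_distrib]; rfl

theorem Near_symm {H : SimpleGraph V} {a b : V} (h : Near H a b) : Near H b a := by
  rcases h with h | h | ⟨w, h, h'⟩ | ⟨w, z, h, h', h''⟩
  · exact Or.inl h.symm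
  · exact Or.inr (Or.inl h.symm)
  · exact Or.inr (Or.inr (Or.inl ⟨w, h'.symm, h.symm⟩))
  · exact Or.inr (Or.inr (Or.inr ⟨z, w, h''.symm, h'.symm, h.symm⟩))

open Classical in
/-- the good quadruples `((a,x),(b,y))` -/
noncomputable def GQ (H : SimpleGraph V) (S T : Finset V) : Finset ((V × V) × (V × V)) :=
  (DS H S ×ˢ DS H T).filter (fun q => ¬ Near H q.1.1 q.2.1 ∧ ¬ Near H q.1.2 q.2.2 ∧
    q.1.2 ∉ S ∪ T ∧ q.2.2 ∉ S ∪ T)

theorem mem_GQ {H : SimpleGraph V} {S T : Finset V} {q : (V × V) × (V × V)} :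
    q ∈ GQ H S T ↔ ((q.1.1 ∈ S ∧ H.Adj q.1.1 q.1.2) ∧ q.2.1 ∈ T ∧ H.Adj q.2.1 q.2.2) ∧
      ¬ Near H q.1.1 q.2.1 ∧ ¬ Near H q.1.2 q.2.2 ∧ q.1.2 ∉ S ∪ T ∧ q.2.2 ∉ S ∪ T := by
  simp [GQ]

/-- number of quadruples that are not good -/
theorem GQ_count {H : SimpleGraph V} {d : ℕ} (hH : Base H d) (hd : 2 ≤ d) {S T : Finset V}
    (hST : Disjoint S T) :
    ∃ B C : ℕ, 2 * B ≤ (1 + d) * S2 H S T ∧ 2 * C ≤ 2 * d ^ 3 * S2 H S T ∧
      (S.card * d) * (T.card * d) ≤ (GQ H S T).card +
        (eo H (S ∪ T) (S ∪ T) * (T.card * d) + eo H (S ∪ T) (S ∪ T) * (S.card * d)) +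
        (eo H S T + B) * (d * d) + C := by
  classical
  set DD := DS H S ×ˢ DS H T with hDD
  refine ⟨(DD.filter (fun q => q.1.2 = q.2.2 ∨ H.Adj q.1.2 q.2.2)).card,
    (DD.filter (fun q => Near H q.1.2 q.2.2)).card, ?_, ?_, ?_⟩
  · have hrc : 2 * (DD.filter (fun q => (fun w z => w = z ∨ H.Adj w z) q.1.2 q.2.2)).card ≤
        (1 + d) * S2 H S T := by
      convert rel_count H S T (fun w z => w = z ∨ H.Adj w z) (1 + d) ?_ ?_
      · intro x
        have : (univ.filter (fun y => x = y ∨ H.Adj x y)) ⊆ {x} ∪ nb H x := by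
          intro y hy
          simp only [Finset.mem_filter, Finset.mem_univ, true_and] at hy
          simp only [Finset.mem_union, Finset.mem_singleton, mem_nb]
          rcases hy with h | h
          · exact Or.inl h.symm
          · exact Or.inr h
        refine le_trans ?_ (le_trans (Finset.card_le_card this)
          (le_trans (Finset.card_union_le _ _) ?_))
        · apply le_of_eq; congr
        rw [Finset.card_singleton, hH.reg]
      · intro y
        have : (univ.filter (fun x => x = y ∨ H.Adj x y)) ⊆ {y} ∪ nb H y := by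
          intro x hx
          simp only [Finset.mem_filter, Finset.mem_univ, true_and] at hx
          simp only [Finset.mem_union, Finset.mem_singleton, mem_nb]
          rcases hx with h | h
          · exact Or.inl h
          · exact Or.inr h.symm
        refine le_trans ?_ (le_trans (Finset.card_le_card this)
          (le_trans (Finset.card_union_le _ _) ?_))
        · apply le_of_eq; congr
        rw [Finset.card_singleton, hH.reg]
    exact hrc
  · apply rel_count H S T (fun w z => Near H w z) (2 * d ^ 3)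
    · intro x
      exact near_card hH hd x
    · intro y
      refine le_trans (Finset.card_le_card ?_) (near_card hH hd y)
      intro x hx
      simp only [Finset.mem_filter, Finset.mem_univ, true_and] at hx ⊢
      exact Near_symm hx
  · -- the union bound
    have hDDc : DD.card = (S.card * d) * (T.card * d) := by
      rw [hDD, Finset.card_product, DS_card hH.reg, DS_card hH.reg]
    rw [← hDDc]
    set F1 := EO H (S ∪ T) (S ∪ T) ×ˢ DS H T with hF1
    set F2 := DS H S ×ˢ EO H (S ∪ T) (S ∪ T) with hF2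
    set F3 := DD.filter (fun q => Near H q.1.1 q.2.1) with hF3
    set F4 := DD.filter (fun q => Near H q.1.2 q.2.2) with hF4
    have hsub : DD ⊆ (((GQ H S T ∪ F1) ∪ F2) ∪ F3) ∪ F4 := by
      intro q hq
      have hq' := hq
      simp only [hDD, Finset.mem_product, mem_DS] at hq'
      obtain ⟨⟨hq1, hq2⟩, hq3, hq4⟩ := hq'
      by_cases h4 : Near H q.1.2 q.2.2
      · exact Finset.mem_union_right _ (Finset.mem_filter.mpr ⟨hq, h4⟩)
      by_cases h3 : Near H q.1.1 q.2.1
      · exact Finset.mem_union_left _ (Finset.mem_union_right _ (Finset.mem_filter.mpr ⟨hq, h3⟩))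
      by_cases h2 : q.2.2 ∈ S ∪ T
      · refine Finset.mem_union_left _ (Finset.mem_union_left _ (Finset.mem_union_right _ ?_))
        simp only [hF2, Finset.mem_product, mem_DS, mem_EO]
        exact ⟨⟨hq1, hq2⟩, ⟨Finset.mem_union_right _ hq3, h2⟩, hq4⟩
      by_cases h1 : q.1.2 ∈ S ∪ T
      · refine Finset.mem_union_left _ (Finset.mem_union_left _ (Finset.mem_union_left _
          (Finset.mem_union_right _ ?_)))
        simp only [hF1, Finset.mem_product, mem_DS, mem_EO]
        exact ⟨⟨⟨Finset.mem_union_left _ hq1, h1⟩, hq2⟩, hq3, hq4⟩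
      refine Finset.mem_union_left _ (Finset.mem_union_left _ (Finset.mem_union_left _
          (Finset.mem_union_left _ ?_)))
      rw [mem_GQ]
      exact ⟨⟨⟨hq1, hq2⟩, hq3, hq4⟩, h3, h4, h1, h2⟩
    have hc := Finset.card_le_card hsub
    have e1 := Finset.card_union_le (((GQ H S T ∪ F1) ∪ F2) ∪ F3) F4
    have e2 := Finset.card_union_le ((GQ H S T ∪ F1) ∪ F2) F3
    have e3 := Finset.card_union_le (GQ H S T ∪ F1) F2
    have e4 := Finset.card_union_le (GQ H S T) F1
    have c1 : F1.card = eo H (S ∪ T) (S ∪ T) * (T.card * d) := by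
      rw [hF1, Finset.card_product, DS_card hH.reg, EO_card]
    have c2 : F2.card = eo H (S ∪ T) (S ∪ T) * (S.card * d) := by
      rw [hF2, Finset.card_product, DS_card hH.reg, EO_card, mul_comm]
    set B := (DD.filter (fun q => q.1.2 = q.2.2 ∨ H.Adj q.1.2 q.2.2)) with hB
    have c3 : F3.card ≤ (eo H S T + B.card) * (d * d) := by
      set NP := (S ×ˢ T).filter (fun p => Near H p.1 p.2) with hNP
      have hNPc : NP.card ≤ eo H S T + B.card := by
        have : NP ⊆ EO H S T ∪ B.image (fun q => (q.1.1, q.2.1)) := by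
          intro p hp
          simp only [hNP, Finset.mem_filter, Finset.mem_product] at hp
          obtain ⟨⟨hp1, hp2⟩, hn⟩ := hp
          rcases hn with h | h | ⟨w, h, h'⟩ | ⟨w, z, h, h', h''⟩
          · exact absurd (h ▸ hp2) (Finset.disjoint_left.mp hST hp1)
          · exact Finset.mem_union_left _ (mem_EO.mpr ⟨⟨hp1, hp2⟩, h⟩)
          · refine Finset.mem_union_right _ (Finset.mem_image.mpr
              ⟨((p.1, w), (p.2, w)), ?_, rfl⟩)
            simp only [hB, hDD, Finset.mem_filter, Finset.mem_product, mem_DS]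
            exact ⟨⟨⟨hp1, h⟩, hp2, h'.symm⟩, Or.inl trivial⟩
          · refine Finset.mem_union_right _ (Finset.mem_image.mpr
              ⟨((p.1, w), (p.2, z)), ?_, rfl⟩)
            simp only [hB, hDD, Finset.mem_filter, Finset.mem_product, mem_DS]
            exact ⟨⟨⟨hp1, h⟩, hp2, h''.symm⟩, Or.inr h'⟩
        refine le_trans (Finset.card_le_card this) (le_trans (Finset.card_union_le _ _) ?_)
        rw [EO_card]
        exact Nat.add_le_add_left Finset.card_image_le _
      have hfib : F3.card = ∑ p ∈ NP, (F3.filter (fun q => (q.1.1, q.2.1) = p)).card := by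
        apply Finset.card_eq_sum_card_fiberwise
        intro q hq
        simp only [hF3, hDD, Finset.coe_filter, Set.mem_setOf_eq, Finset.mem_product,
          mem_DS] at hq
        simp only [hNP, Finset.coe_filter, Set.mem_setOf_eq, Finset.mem_product]
        exact ⟨⟨hq.1.1.1, hq.1.2.1⟩, hq.2⟩
      have hle : ∀ p ∈ NP, (F3.filter (fun q => (q.1.1, q.2.1) = p)).card ≤ d * d := by
        intro p _
        have : d * d = (nb H p.1 ×ˢ nb H p.2).card := by
          rw [Finset.card_product, hH.reg, hH.reg]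
        rw [this]
        apply Finset.card_le_card_of_injOn (fun q => (q.1.2, q.2.2))
        · intro q hq
          simp only [hF3, hDD, Finset.coe_filter, Set.mem_setOf_eq, Finset.mem_filter,
            Finset.mem_product, mem_DS] at hq
          obtain ⟨⟨⟨⟨hq1, hq2⟩, hq3, hq4⟩, _⟩, rfl⟩ := hq
          simp only [Finset.coe_product, Set.mem_prod, Finset.mem_coe, mem_nb]
          exact ⟨hq2, hq4⟩
        · intro q hq q' hq' h
          simp only [Finset.coe_filter, Set.mem_setOf_eq] at hq hq'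
          obtain ⟨_, rfl⟩ := hq
          have h' := hq'.2
          simp only [Prod.mk.injEq] at h h'
          ext
          · exact h'.1.symm
          · exact h.1
          · exact h'.2.symm
          · exact h.2
      rw [hfib]
      calc _ ≤ ∑ p ∈ NP, d * d := Finset.sum_le_sum hle
        _ = NP.card * (d * d) := by simp
        _ ≤ _ := Nat.mul_le_mul_right _ hNPc
    omega

/-- switching preserves the classes -/
theorem FJ_sw {H : SimpleGraph V} {d : ℕ} (hH : Base H d) {S T : Finset V}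
    (hST : Disjoint S T) {E1 σ0 j : ℕ} {a x b y : V} (ha : a ∈ S) (hax : H.Adj a x)
    (hb : b ∈ T) (hby : H.Adj b y) (hab : ¬ Near H a b) (hxy : ¬ Near H x y)
    (hx : x ∉ S ∪ T) (hy : y ∉ S ∪ T) (hF : FJ S T E1 σ0 d j H) :
    FJ S T E1 σ0 d (j + 1) (sw H a x b y) := by
  classical
  have hadj := sw_adj hax hby hab hxy
  have hd : 1 ≤ d := by
    rw [← hH.reg a]; exact Finset.card_pos.mpr ⟨x, by simpa using hax⟩
  have hab0 : a ≠ b := fun h => hab (Or.inl h)
  have hab1 : ¬ H.Adj a b := fun h => hab (Or.inr (Or.inl h))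
  have haT : a ∉ T := fun h => Finset.disjoint_left.mp hST ha h
  have hbS : b ∉ S := fun h => Finset.disjoint_left.mp hST h hb
  rw [Finset.mem_union, not_or] at hx hy
  obtain ⟨hxS, hxT⟩ := hx
  obtain ⟨hyS, hyT⟩ := hy
  obtain ⟨f1, f2, f3⟩ := hF
  refine ⟨?_, ?_, ?_⟩
  · have : EO (sw H a x b y) S T = insert (a, b) (EO H S T) := by
      ext ⟨u, v⟩
      simp only [mem_EO, hadj, Finset.mem_insert, Prod.mk.injEq, Sym2.eq_iff]
      constructor
      · rintro ⟨⟨hu, hv⟩, h | h | h⟩
        · exact Or.inr ⟨⟨hu, hv⟩, h.1⟩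
        · rcases h with ⟨h1, h2⟩ | ⟨h1, h2⟩
          · exact Or.inl ⟨h1, h2⟩
          · subst h1; exact absurd hu hbS
        · rcases h with ⟨h1, h2⟩ | ⟨h1, h2⟩
          · subst h1; exact absurd hu hxS
          · subst h1; exact absurd hu hyS
      · rintro (⟨rfl, rfl⟩ | ⟨⟨hu, hv⟩, h⟩)
        · exact ⟨⟨ha, hb⟩, Or.inr (Or.inl (Or.inl ⟨rfl, rfl⟩))⟩
        · refine ⟨⟨hu, hv⟩, Or.inl ⟨h, ?_, ?_⟩⟩ <;> rw [Ne, Sym2.eq_iff]
          · rintro (⟨h1, h2⟩ | ⟨h1, h2⟩)
            · subst h2; exact hxT hv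
            · subst h1; exact hxS hu
          · rintro (⟨h1, h2⟩ | ⟨h1, h2⟩)
            · subst h2; exact hyT hv
            · subst h1; exact hyS hu
    have h2 : (a, b) ∉ EO H S T := by
      simp only [mem_EO]; rintro ⟨_, h⟩; exact hab1 h
    rw [← EO_card, this, Finset.card_insert_of_notMem h2, EO_card, f1]
  · have : EO (sw H a x b y) (S ∪ T) (S ∪ T) ⊆ insert (a, b) (insert (b, a)
        (EO H (S ∪ T) (S ∪ T))) := by
      rintro ⟨u, v⟩
      simp only [mem_EO, hadj, Finset.mem_insert, Prod.mk.injEq, Sym2.eq_iff, Finset.mem_union]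
      rintro ⟨⟨hu, hv⟩, h | h | h⟩
      · exact Or.inr (Or.inr ⟨⟨hu, hv⟩, h.1⟩)
      · rcases h with ⟨h1, h2⟩ | ⟨h1, h2⟩
        · exact Or.inl ⟨h1, h2⟩
        · exact Or.inr (Or.inl ⟨h1, h2⟩)
      · rcases h with ⟨h1, h2⟩ | ⟨h1, h2⟩
        · subst h1; rcases hu with hu | hu
          · exact absurd hu hxS
          · exact absurd hu hxT
        · subst h1; rcases hu with hu | hu
          · exact absurd hu hyS
          · exact absurd hu hyT
    have h1 := Finset.card_le_card this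
    have h2 := Finset.card_insert_le (a, b) (insert (b, a) (EO H (S ∪ T) (S ∪ T)))
    have h3 := Finset.card_insert_le (b, a) (EO H (S ∪ T) (S ∪ T))
    rw [EO_card] at h1 h3
    omega
  · have hsubS : ∀ w, nb (sw H a x b y) w ∩ S ⊆ (nb H w ∩ S) ∪ (if w = b then {a} else ∅) := by
      intro w u hu
      simp only [Finset.mem_inter, mem_nb, hadj, Sym2.eq_iff] at hu
      simp only [Finset.mem_union, Finset.mem_inter, mem_nb]
      obtain ⟨h | h | h, hu⟩ := hu
      · exact Or.inl ⟨h.1, hu⟩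
      · rcases h with ⟨h1, h2⟩ | ⟨h1, h2⟩
        · subst h2; exact absurd hu hbS
        · right; rw [if_pos h1]; simpa using h2
      · rcases h with ⟨h1, h2⟩ | ⟨h1, h2⟩
        · subst h2; exact absurd hu hyS
        · subst h2; exact absurd hu hxS
    have hsubT : ∀ w, nb (sw H a x b y) w ∩ T ⊆ (nb H w ∩ T) ∪ (if w = a then {b} else ∅) := by
      intro w u hu
      simp only [Finset.mem_inter, mem_nb, hadj, Sym2.eq_iff] at hu
      simp only [Finset.mem_union, Finset.mem_inter, mem_nb]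
      obtain ⟨h | h | h, hu⟩ := hu
      · exact Or.inl ⟨h.1, hu⟩
      · rcases h with ⟨h1, h2⟩ | ⟨h1, h2⟩
        · right; rw [if_pos h1]; simpa using h2
        · subst h2; exact absurd hu haT
      · rcases h with ⟨h1, h2⟩ | ⟨h1, h2⟩
        · subst h2; exact absurd hu hyT
        · subst h2; exact absurd hu hxT
    have hdeg : ∀ (w : V) (A : Finset V), (nb H w ∩ A).card ≤ d := fun w A => by
      rw [← hH.reg w]; exact Finset.card_le_card Finset.inter_subset_left
    have hS : ∀ w, (nb (sw H a x b y) w ∩ S).card ^ 2 ≤ (nb H w ∩ S).card ^ 2 +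
        (if w = b then 2 * d + 1 else 0) := by
      intro w
      have h1 := le_trans (Finset.card_le_card (hsubS w)) (Finset.card_union_le _ _)
      have h2 := hdeg w S
      by_cases hw : w = b
      · rw [if_pos hw, Finset.card_singleton] at h1
        rw [if_pos hw]
        calc _ ≤ ((nb H w ∩ S).card + 1) ^ 2 := Nat.pow_le_pow_left h1 2
          _ ≤ _ := by nlinarith
      · rw [if_neg hw, Finset.card_empty] at h1
        rw [if_neg hw]
        exact Nat.pow_le_pow_left h1 2
    have hT : ∀ w, (nb (sw H a x b y) w ∩ T).card ^ 2 ≤ (nb H w ∩ T).card ^ 2 +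
        (if w = a then 2 * d + 1 else 0) := by
      intro w
      have h1 := le_trans (Finset.card_le_card (hsubT w)) (Finset.card_union_le _ _)
      have h2 := hdeg w T
      by_cases hw : w = a
      · rw [if_pos hw, Finset.card_singleton] at h1
        rw [if_pos hw]
        calc _ ≤ ((nb H w ∩ T).card + 1) ^ 2 := Nat.pow_le_pow_left h1 2
          _ ≤ _ := by nlinarith
      · rw [if_neg hw, Finset.card_empty] at h1
        rw [if_neg hw]
        exact Nat.pow_le_pow_left h1 2
    have hsum : S2 (sw H a x b y) S T ≤ S2 H S T + (2 * d + 1) + (2 * d + 1) := by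
      unfold S2
      calc _ ≤ ∑ w : V, (((nb H w ∩ S).card ^ 2 + (nb H w ∩ T).card ^ 2) +
              (if w = b then 2 * d + 1 else 0) + (if w = a then 2 * d + 1 else 0)) := by
            refine Finset.sum_le_sum (fun w _ => ?_)
            have := hS w
            have := hT w
            omega
        _ = _ := by
            rw [Finset.sum_add_distrib, Finset.sum_add_distrib]
            simp
    have : σ0 + 6 * d * (j + 1) = (σ0 + 6 * d * j) + 6 * d := by ring
    rw [this]
    omega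

/-- mod:T6b -/
theorem fj_step {A s c d M β : ℕ} (h : Par A s c d M β) {S T : Finset (Fin M)}
    (hS : S.card = β) (hT : T.card = β) (hST : Disjoint S T) {E1 σ0 j : ℕ}
    (hE : 128 * E1 ≤ β * c ^ 2) (hσ : 16 * d * σ0 ≤ β ^ 2) (hj : 16 * j ≤ β * c) :
    num M d (FJ S T E1 σ0 d j) * (β ^ 2 * d ^ 2) ≤
      4 * ((j + 1) * (M * d)) * num M d (FJ S T E1 σ0 d (j + 1)) := by
  classical
  -- numerics
  have hA := h.hA
  have hs := h.hs
  have hc1000 : 1000 ≤ c := by
    have h1 : 1 ≤ (A + 1) * (s + 1) := Nat.mul_pos (Nat.succ_pos _) (Nat.succ_pos _)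
    calc 1000 = 1000 * 1 := rfl
      _ ≤ 1000 * ((A + 1) * (s + 1)) := Nat.mul_le_mul_left _ h1
      _ = 1000 * (A + 1) * (s + 1) := by ring
      _ ≤ c := hs
  have hcpos : 0 < c := by omega
  have hdc : c ^ 3 ≤ d := by
    rw [h.hd]; exact Nat.pow_le_pow_right hcpos (by omega)
  have hβd : β = d ^ 2 * c ^ 2 := by
    rw [h.hβ, h.hd]; ring
  have hd2 : 2 ≤ d := by
    have : c ≤ c ^ 3 := Nat.le_self_pow (by norm_num) c
    omega
  -- lower bound for the number of good quadruples
  have hgood : ∀ H, Base H d → FJ S T E1 σ0 d j H → β ^ 2 * d ^ 2 ≤ 4 * (GQ H S T).card := by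
    intro H hH hF
    obtain ⟨B, C, hB, hC, hcount⟩ := GQ_count hH hd2 hST
    obtain ⟨f1, f2, f3⟩ := hF
    rw [hS, hT, f1] at hcount
    set eo2 := eo H (S ∪ T) (S ∪ T) with heo2
    set S2' := S2 H S T with hS2'
    -- 64 eo2 ≤ β d
    have g1 : 64 * eo2 ≤ β * d := by
      have h1 : 64 * eo2 ≤ 64 * E1 + 128 * j := by omega
      have h2 : 128 * j ≤ 8 * (β * c) := by omega
      have h3 : 64 * E1 ≤ β * c ^ 2 := by omega
      have h4 : β * c ^ 2 + 8 * (β * c) ≤ β * d := by
        have : c ^ 2 + 8 * c ≤ d := by nlinarith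
        calc β * c ^ 2 + 8 * (β * c) = β * (c ^ 2 + 8 * c) := by ring
          _ ≤ β * d := Nat.mul_le_mul_left _ this
      omega
    -- 8 d S2 ≤ β²
    have g2 : 8 * d * S2' ≤ β ^ 2 := by
      have h1 : 16 * d * S2' ≤ 16 * d * (σ0 + 6 * d * j) := Nat.mul_le_mul_left _ f3
      have h2 : 16 * d * (σ0 + 6 * d * j) = 16 * d * σ0 + 6 * d ^ 2 * (16 * j) := by ring
      have h3 : 6 * d ^ 2 * (16 * j) ≤ 6 * d ^ 2 * (β * c) := Nat.mul_le_mul_left _ hj
      have h4 : 6 * d ^ 2 * (β * c) ≤ β ^ 2 := by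
        have : 6 * d ^ 2 * c ≤ β := by
          rw [hβd]
          have : 6 * c ≤ c ^ 2 := by nlinarith
          calc 6 * d ^ 2 * c = d ^ 2 * (6 * c) := by ring
            _ ≤ d ^ 2 * c ^ 2 := Nat.mul_le_mul_left _ this
        calc 6 * d ^ 2 * (β * c) = (6 * d ^ 2 * c) * β := by ring
          _ ≤ β * β := Nat.mul_le_mul_right _ this
          _ = β ^ 2 := by ring
      nlinarith
    have g3 : 16 * j ≤ β ^ 2 := by
      have hβ1 : c ≤ β := by
        rw [hβd]
        have h1 : 1 ≤ d ^ 2 := Nat.one_le_pow _ _ (by omega)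
        calc c ≤ c ^ 2 := Nat.le_self_pow (by norm_num) c
          _ = 1 * c ^ 2 := by ring
          _ ≤ d ^ 2 * c ^ 2 := Nat.mul_le_mul_right _ h1
      calc 16 * j ≤ β * c := hj
        _ ≤ β * β := Nat.mul_le_mul_left _ hβ1
        _ = β ^ 2 := by ring
    -- combine
    have k1 : 8 * (4 * (eo2 * (β * d) + eo2 * (β * d))) ≤ β ^ 2 * d ^ 2 := by
      calc 8 * (4 * (eo2 * (β * d) + eo2 * (β * d))) = (64 * eo2) * (β * d) := by ring
        _ ≤ (β * d) * (β * d) := Nat.mul_le_mul_right _ g1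
        _ = _ := by ring
    have k2 : 4 * (4 * (j * (d * d))) ≤ β ^ 2 * d ^ 2 := by
      calc 4 * (4 * (j * (d * d))) = (16 * j) * d ^ 2 := by ring
        _ ≤ β ^ 2 * d ^ 2 := Nat.mul_le_mul_right _ g3
    have k3 : 2 * (4 * (B * (d * d))) ≤ β ^ 2 * d ^ 2 := by
      calc 2 * (4 * (B * (d * d))) = 4 * (2 * B) * d ^ 2 := by ring
        _ ≤ 4 * ((1 + d) * S2') * d ^ 2 :=
            Nat.mul_le_mul_right _ (Nat.mul_le_mul_left _ hB)
        _ ≤ 4 * ((2 * d) * S2') * d ^ 2 :=
            Nat.mul_le_mul_right _ (Nat.mul_le_mul_left _ (Nat.mul_le_mul_right _ (by omega)))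
        _ = (8 * d * S2') * d ^ 2 := by ring
        _ ≤ _ := Nat.mul_le_mul_right _ g2
    have k4 : 2 * (4 * C) ≤ β ^ 2 * d ^ 2 := by
      calc 2 * (4 * C) = 4 * (2 * C) := by ring
        _ ≤ 4 * (2 * d ^ 3 * S2') := Nat.mul_le_mul_left _ hC
        _ = (8 * d * S2') * d ^ 2 := by ring
        _ ≤ _ := Nat.mul_le_mul_right _ g2
    have k5 : (j + B) * (d * d) = j * (d * d) + B * (d * d) := by ring
    have k6 : (β * d) * (β * d) = β ^ 2 * d ^ 2 := by ring
    rw [k5, k6] at hcount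
    omega
  -- double counting
  set F0 := (fam M d).filter (FJ S T E1 σ0 d j) with hF0
  set F1 := (fam M d).filter (FJ S T E1 σ0 d (j + 1)) with hF1
  have hn0 : num M d (FJ S T E1 σ0 d j) = F0.card := by
    unfold num; rw [hF0]
  have hn1 : num M d (FJ S T E1 σ0 d (j + 1)) = F1.card := by
    unfold num; rw [hF1]
  have hinj : (F0.sigma (fun H => GQ H S T)).card ≤
      (F1.sigma (fun H => EO H S T ×ˢ DS H (univ : Finset (Fin M)))).card := by
    apply Finset.card_le_card_of_injOn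
      (fun p => ⟨sw p.1 p.2.1.1 p.2.1.2 p.2.2.1 p.2.2.2,
        ((p.2.1.1, p.2.2.1), (p.2.1.2, p.2.2.2))⟩)
    · rintro ⟨H, ⟨⟨a, x⟩, ⟨b, y⟩⟩⟩ hp
      simp only [Finset.coe_sigma, Set.mem_sigma_iff, Finset.mem_coe, hF0, Finset.mem_filter,
        mem_fam, mem_GQ] at hp
      obtain ⟨⟨hH, hF⟩, ⟨⟨ha, hax⟩, hb, hby⟩, hab, hxy, hx, hy⟩ := hp
      simp only [Finset.coe_sigma, Set.mem_sigma_iff, Finset.mem_coe, hF1, Finset.mem_filter,
        mem_fam, Finset.mem_product, mem_EO, mem_DS, Finset.mem_univ, true_and]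
      refine ⟨⟨sw_base hH hax hby hab hxy, FJ_sw hH hST ha hax hb hby hab hxy hx hy hF⟩,
        ⟨⟨ha, hb⟩, ?_⟩, ?_⟩
      · rw [sw_adj hax hby hab hxy]; exact Or.inr (Or.inl rfl)
      · rw [sw_adj hax hby hab hxy]; exact Or.inr (Or.inr rfl)
    · rintro ⟨H, ⟨⟨a, x⟩, ⟨b, y⟩⟩⟩ hp ⟨H', ⟨⟨a', x'⟩, ⟨b', y'⟩⟩⟩ hp' heq
      simp only [Finset.coe_sigma, Set.mem_sigma_iff, Finset.mem_coe, hF0, Finset.mem_filter,
        mem_fam, mem_GQ] at hp hp'
      obtain ⟨_, ⟨⟨ha, hax⟩, hb, hby⟩, hab, hxy, hx, hy⟩ := hp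
      obtain ⟨_, ⟨⟨ha', hax'⟩, hb', hby'⟩, hab', hxy', hx', hy'⟩ := hp'
      simp only [Sigma.mk.injEq, heq_eq_eq, Prod.mk.injEq] at heq
      obtain ⟨h1, ⟨rfl, rfl⟩, rfl, rfl⟩ := heq
      have e1 := sw_sw hax hby hab hxy
      have e2 := sw_sw hax' hby' hab' hxy'
      rw [h1] at e1
      have : H = H' := e1.symm.trans e2
      subst this
      rfl
  rw [Finset.card_sigma, Finset.card_sigma] at hinj
  have hL : F0.card * (β ^ 2 * d ^ 2) ≤ 4 * ∑ H ∈ F0, (GQ H S T).card := by
    rw [Finset.mul_sum, ← smul_eq_mul, ← Finset.sum_const]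
    refine Finset.sum_le_sum (fun H hH => ?_)
    simp only [hF0, Finset.mem_filter, mem_fam] at hH
    exact hgood H hH.1 hH.2
  have hR : ∑ H ∈ F1, (EO H S T ×ˢ DS H (univ : Finset (Fin M))).card =
      F1.card * ((j + 1) * (M * d)) := by
    rw [← smul_eq_mul, ← Finset.sum_const]
    refine Finset.sum_congr rfl (fun H hH => ?_)
    simp only [hF1, Finset.mem_filter, mem_fam] at hH
    rw [Finset.card_product, DS_card hH.1.reg, EO_card, hH.2.1, Finset.card_univ,
      Fintype.card_fin]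
  rw [hn0, hn1]
  calc F0.card * (β ^ 2 * d ^ 2) ≤ 4 * ∑ H ∈ F0, (GQ H S T).card := hL
    _ ≤ 4 * (F1.card * ((j + 1) * (M * d))) := by
        rw [← hR]; exact Nat.mul_le_mul_left _ hinj
    _ = _ := by ring

end Pool.Agent.helper11.Tight
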